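import Pool.Agent.Y354.DC3.Stm

/-!
# The recursion forces `49 / 20`
-/

set_option autoImplicit false

open Finset
open scoped Classical

namespace Pool.Agent.Y406.DC3

open Pool.Agent.Y354.DC3

/-- one step of the barrier argument -/
theorem step (h : S_PO) {α κ t q q' c c' : ℝ} (hα : 10 ^ 7 ≤ α) (hκ : 1 ≤ κ) (hκα : κ + 1 ≤ α)
    (hc0 : 0 ≤ c) (hcq : c ≤ 2 * q) (hq1 : q ≤ 1) (hc'0 : 0 ≤ c')
    (F1 : q' - q ≤ c' / (κ + 1))
    (F3 : κ * ((1 - q) * (c' / (κ + 1))) + 5 / 6 * c ^ 2 ≤ κ ^ 2 * t)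
    (ht : α ^ 2 * t ≤ 49 / 20)
    (ih : q - κ * rr ((κ / α) ^ 2) / α ^ 2 * c ≤ Ph ((κ / α) ^ 2) - 6 / α) :
    q' - (κ + 1) * rr (((κ + 1) / α) ^ 2) / α ^ 2 * c' ≤ Ph (((κ + 1) / α) ^ 2) - 6 / α := by
  obtain ⟨p1, -, p3, p4, -⟩ := h
  have hα0 : 0 < α := by linarith
  have hκ0 : 0 < κ := by linarith
  set z : ℝ := (κ / α) ^ 2 with hz
  set z' : ℝ := ((κ + 1) / α) ^ 2 with hz'
  have hz0 : 0 ≤ z := by positivity
  have hza : z * α ^ 2 = κ ^ 2 := by rw [hz, div_pow, div_mul_cancel₀ _ (by positivity)]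
  have hz'a : z' * α ^ 2 = (κ + 1) ^ 2 := by
    rw [hz', div_pow, div_mul_cancel₀ _ (by positivity)]
  have hz'1 : z' ≤ 1 := by
    rw [hz']
    apply pow_le_one₀ (by positivity)
    rw [div_le_one hα0]
    exact hκα
  have hzz' : z ≤ z' := by
    rw [hz, hz']
    apply pow_le_pow_left₀ (by positivity)
    gcongr
    linarith
  obtain ⟨l0, r0, r1, f0, f1, hmain⟩ := p3 z hz0 (hzz'.trans hz'1)
  obtain ⟨hmono, hder⟩ := p4 z z' hz0 hzz' hz'1
  have hp1 := p1 z'
  set r := rr z with hr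
  set l := la z with hl
  set f := Ph z with hf
  set d := dPh z with hd
  set δ : ℝ := κ / α ^ 2 with hδ
  have hδ0 : 0 < δ := by positivity
  have hδκ : δ * κ = z := by
    rw [hδ, hz, div_pow]
    ring
  have hδα : δ * α ≤ 1 := by
    rw [hδ, div_mul_eq_mul_div, div_le_one (by positivity), pow_two]
    exact mul_le_mul_of_nonneg_right (by linarith) hα0.le
  have hd0 : 0 ≤ d := by
    by_contra hneg
    push Not at hneg
    have h1 : 0 ≤ l ^ 2 * (49 / 20) + 3 / 10 * z * r ^ 2 + 3 / 1000 * l := by positivity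
    have h2 := mul_neg_of_pos_of_neg l0 hneg
    linarith
  -- the correction term
  have hc2 : c ≤ 2 := by linarith
  have e1 : κ * r / α ^ 2 * c = δ * r * c := by rw [hδ]; ring
  have h1 : δ * r * c ≤ 6 / α := by
    rw [le_div_iff₀ hα0]
    have h2 : r * c ≤ 11 / 4 * 2 := mul_le_mul r1 hc2 hc0 (by norm_num)
    have h3 : 0 ≤ r * c := mul_nonneg r0 hc0
    have h4 : δ * α * (r * c) ≤ 1 * (r * c) := mul_le_mul_of_nonneg_right hδα h3
    have h5 : δ * r * c * α = δ * α * (r * c) := by ring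
    rw [h5]
    linarith
  rw [e1] at ih
  have hqf : q ≤ f := by linarith
  -- the first term
  have e2 : (κ + 1) * rr z' / α ^ 2 * c' = c' / (κ + 1) * (z' * rr z') := by
    rw [hz', div_pow]
    field_simp
  have h4 : q' - (κ + 1) * rr z' / α ^ 2 * c' ≤ q + l * ((1 - q) * (c' / (κ + 1))) := by
    rw [e2]
    have h5 : 0 ≤ c' / (κ + 1) := by positivity
    have h6 : 1 - z' * rr z' ≤ l * (1 - q) := by
      rw [← hp1]
      refine hmono.trans ?_
      exact mul_le_mul_of_nonneg_left (by linarith) l0.le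
    have h7 := mul_le_mul_of_nonneg_left h6 h5
    have h8 : c' / (κ + 1) * (l * (1 - q)) = l * ((1 - q) * (c' / (κ + 1))) := by ring
    linarith
  have h9 : (1 - q) * (c' / (κ + 1)) ≤ (κ ^ 2 * t - 5 / 6 * c ^ 2) / κ := by
    rw [le_div_iff₀ hκ0]
    linarith
  have h10 : κ ^ 2 * t ≤ z * (49 / 20) := by
    have : κ ^ 2 * t = z * (α ^ 2 * t) := by rw [← hza]; ring
    rw [this]
    exact mul_le_mul_of_nonneg_left ht hz0
  have h11 : l * ((1 - q) * (c' / (κ + 1))) ≤ l * ((z * (49 / 20) - 5 / 6 * c ^ 2) / κ) := by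
    refine mul_le_mul_of_nonneg_left (h9.trans ?_) l0.le
    gcongr
  -- the maximum over `c`
  have h12 : l * (z * (49 / 20) - 5 / 6 * c ^ 2) + z * r * c ≤ z * (2 * d - 3 / 1000) := by
    have h13 : l * (l * (z * (49 / 20) - 5 / 6 * c ^ 2) + z * r * c) ≤
        l * (z * (2 * d - 3 / 1000)) := by
      have h14 := mul_le_mul_of_nonneg_left hmain hz0
      have i1 : l * (l * (z * (49 / 20) - 5 / 6 * c ^ 2) + z * r * c) +
          1 / 30 * (5 * l * c - 3 * (z * r)) ^ 2 =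
          z * (l ^ 2 * (49 / 20) + 3 / 10 * z * r ^ 2 + 3 / 1000 * l) - z * (3 / 1000 * l) := by
        ring
      have i2 : l * (z * (2 * d - 3 / 1000)) = z * (2 * l * d) - z * (3 / 1000 * l) := by ring
      have i3 := sq_nonneg (5 * l * c - 3 * (z * r))
      rw [i2]
      linarith only [h14, i1, i3]
    exact le_of_mul_le_mul_left h13 l0
  have h15 : l * ((z * (49 / 20) - 5 / 6 * c ^ 2) / κ) + δ * r * c ≤
      δ * (2 * d - 3 / 1000) := by
    have e3 : l * ((z * (49 / 20) - 5 / 6 * c ^ 2) / κ) + δ * r * c =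
        (l * (z * (49 / 20) - 5 / 6 * c ^ 2) + z * r * c) / κ := by
      rw [← hδκ]
      field_simp
    have e4 : δ * (2 * d - 3 / 1000) = z * (2 * d - 3 / 1000) / κ := by
      rw [← hδκ]
      field_simp
    rw [e3, e4]
    gcongr
  -- the growth of the barrier
  have e5 : z' - z = 2 * δ + 1 / α ^ 2 := by
    have : (z' - z) * α ^ 2 = 2 * κ + 1 := by rw [sub_mul, hz'a, hza]; ring
    rw [hδ]
    field_simp
    linarith
  have h16 : 2 * δ ≤ z' - z := by
    rw [e5]
    have : 0 < 1 / α ^ 2 := by positivity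
    linarith
  have h17 : z' - z ≤ 3 * δ := by
    rw [e5]
    have : 1 / α ^ 2 ≤ δ := by
      rw [hδ]
      gcongr
    linarith
  have h18 : d * (2 * δ) ≤ d * (z' - z) := mul_le_mul_of_nonneg_left h16 hd0
  have h19 : (z' - z) ^ 2 ≤ (3 * δ) ^ 2 := pow_le_pow_left₀ (by linarith) h17 2
  have h20 : δ ≤ 1 / 1200 := by
    have h201 : δ * 10 ^ 7 ≤ δ * α := mul_le_mul_of_nonneg_left hα hδ0.le
    linarith
  have h21 : 2 / 5 * (3 * δ) ^ 2 ≤ 3 / 1000 * δ := by
    have h211 : δ * δ ≤ 1 / 1200 * δ := mul_le_mul_of_nonneg_right h20 hδ0.le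
    have h212 : 2 / 5 * (3 * δ) ^ 2 = 18 / 5 * (δ * δ) := by ring
    rw [h212]
    linarith
  linarith

theorem s_ch (h : S_PO) : S_CH := by
  refine ⟨10 ^ 7, fun a ha p y t hp0 hp1 hp2 hpos hpa hpn hyn g1 g2 g3 => ?_⟩
  by_contra hcon
  push Not at hcon
  have hα : (10 : ℝ) ^ 7 ≤ a := by exact_mod_cast ha
  have hα0 : (0 : ℝ) < a := by linarith [hα, (by norm_num : (0 : ℝ) < 10 ^ 7)]
  have ha2 : 2 ≤ a := le_trans (by norm_num) ha
  set q : ℕ → ℝ := fun k => 1 - p (k + 1) / p k with hq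
  set c : ℕ → ℝ := fun k => k * y (k - 1) / p k with hc
  have q1 : q 1 = 0 := by
    simp only [hq]
    rw [hp2, hp1]
    norm_num
  have qa : q a = 1 := by
    simp only [hq]
    rw [hpa]
    simp
  have qle : ∀ k, k ≤ a → q k ≤ 1 := by
    intro k hk
    simp only [hq]
    have := div_nonneg (hpn (k + 1)) (hpos k hk).le
    linarith
  have c0 : ∀ k, k ≤ a → 0 ≤ c k := by
    intro k hk
    simp only [hc]
    exact div_nonneg (mul_nonneg (Nat.cast_nonneg _) (hyn _)) (hpos k hk).le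
  have F1 : ∀ k, k + 1 ≤ a → q (k + 1) - q k ≤ c (k + 1) / ((k : ℝ) + 1) := by
    intro k hk
    have h1 := g1 k
    have a1 := hpos k (by omega)
    have a2 := hpos (k + 1) hk
    have e : c (k + 1) / ((k : ℝ) + 1) = y k / p (k + 1) := by
      simp only [hc]
      rw [Nat.add_sub_cancel]
      push_cast
      field_simp
    rw [e]
    simp only [hq]
    have e2 : 1 - p (k + 1 + 1) / p (k + 1) - (1 - p (k + 1) / p k) =
        p (k + 1) / p k - p (k + 2) / p (k + 1) := by ring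
    rw [e2, sub_le_iff_le_add, ← add_div, div_le_div_iff₀ a1 a2]
    nlinarith
  have F2 : ∀ k, 1 ≤ k → k ≤ a → c k ≤ 2 * q k := by
    intro k hk1 hk
    obtain ⟨j, rfl⟩ : ∃ j, k = j + 1 := ⟨k - 1, by omega⟩
    have h1 := g2 j
    have a2 := hpos (j + 1) hk
    simp only [hc, hq]
    rw [Nat.add_sub_cancel, div_le_iff₀ a2]
    push_cast
    have : 2 * (1 - p (j + 1 + 1) / p (j + 1)) * p (j + 1) = 2 * (p (j + 1) - p (j + 2)) := by
      field_simp
    rw [this]
    exact h1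
  have F3 : ∀ k, 1 ≤ k → k + 1 ≤ a →
      (k : ℝ) * ((1 - q k) * (c (k + 1) / ((k : ℝ) + 1))) + 5 / 6 * c k ^ 2 ≤ (k : ℝ) ^ 2 * t := by
    intro k hk1 hk
    obtain ⟨j, rfl⟩ : ∃ j, k = j + 1 := ⟨k - 1, by omega⟩
    have h1 := g3 j
    have a2 := hpos (j + 1) (by omega)
    have a3 := hpos (j + 1 + 1) hk
    have e : (1 - q (j + 1)) * (c (j + 1 + 1) / (((j + 1 : ℕ) : ℝ) + 1)) =
        y (j + 1) / p (j + 1) := by
      simp only [hc, hq]
      rw [Nat.add_sub_cancel]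
      push_cast
      field_simp
      ring
    have e2 : c (j + 1) = ((j : ℝ) + 1) * y j / p (j + 1) := by
      simp only [hc]
      rw [Nat.add_sub_cancel]
      push_cast
      ring
    rw [e, e2]
    push_cast
    have hj : (0 : ℝ) < (j : ℝ) + 1 := by positivity
    have e3 : ((j : ℝ) + 1) * (y (j + 1) / p (j + 1)) +
        5 / 6 * (((j : ℝ) + 1) * y j / p (j + 1)) ^ 2 =
        ((j : ℝ) + 1) * (y (j + 1) * p (j + 1) + 5 / 6 * ((j : ℝ) + 1) * y j ^ 2) /
          p (j + 1) ^ 2 := by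
      field_simp
    rw [e3, div_le_iff₀ (by positivity)]
    have h2 := mul_le_mul_of_nonneg_left h1 hj.le
    linarith
  have ht0 : 0 ≤ t := by
    have h1 := F3 1 le_rfl (by omega)
    rw [q1] at h1
    have h2 := c0 2 (by omega)
    have h3 := sq_nonneg (c 1)
    norm_num at h1
    linarith
  have F4 : ∀ k, 2 ≤ k → k ≤ a → q k ≤ (k : ℝ) * ((k : ℝ) - 1) * t / 2 := by
    intro k hk
    induction k, hk using Nat.le_induction with
    | base =>
      intro _
      have h1 := F1 1 (by omega)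
      have h2 := F3 1 le_rfl (by omega)
      rw [q1] at h1 h2
      have h3 := sq_nonneg (c 1)
      norm_num at h1 h2 ⊢
      linarith
    | succ k hk ih =>
      intro hka
      have ih := ih (by omega)
      have h1 := F1 k hka
      have h2 := F2 (k + 1) (by omega) hka
      have hk2 : (2 : ℝ) ≤ k := by exact_mod_cast hk
      have hk1 : (0 : ℝ) < (k : ℝ) + 1 := by positivity
      have h3 : c (k + 1) / ((k : ℝ) + 1) ≤ 2 * q (k + 1) / ((k : ℝ) + 1) := by gcongr
      have h4 : (q (k + 1) - q k) * ((k : ℝ) + 1) ≤ 2 * q (k + 1) := by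
        rw [← le_div_iff₀ hk1]
        exact h1.trans h3
      have h5 : ((k : ℝ) - 1) * q (k + 1) ≤ ((k : ℝ) - 1) * (((k : ℝ) + 1) * k * t / 2) := by
        have h6 : ((k : ℝ) + 1) * q k ≤ ((k : ℝ) + 1) * ((k : ℝ) * ((k : ℝ) - 1) * t / 2) :=
          mul_le_mul_of_nonneg_left ih hk1.le
        nlinarith
      have h7 := le_of_mul_le_mul_left h5 (by linarith)
      push_cast
      have e : ((k : ℝ) + 1) * ((k : ℝ) + 1 - 1) * t / 2 = ((k : ℝ) + 1) * k * t / 2 := by ring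
      rw [e]
      exact h7
  obtain ⟨p1, pP1, p3, p4, p5⟩ := h
  -- the claim
  set k0 : ℕ := a / 10 with hk0
  have hk0a : 10 * k0 ≤ a := by omega
  have hk0b : a ≤ 10 * k0 + 9 := by omega
  have hk0a' : 10 * (k0 : ℝ) ≤ a := by exact_mod_cast hk0a
  have hk0b' : (a : ℝ) ≤ 10 * k0 + 9 := by exact_mod_cast hk0b
  have claim : ∀ k, k0 ≤ k → k ≤ a →
      q k - (k : ℝ) * rr (((k : ℝ) / a) ^ 2) / (a : ℝ) ^ 2 * c k ≤
        Ph (((k : ℝ) / a) ^ 2) - 6 / a := by
    intro k hk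
    induction k, hk using Nat.le_induction with
    | base =>
      intro hka
      set z : ℝ := ((k0 : ℝ) / a) ^ 2 with hz
      have hz0 : 0 ≤ z := by positivity
      have hza : z * (a : ℝ) ^ 2 = (k0 : ℝ) ^ 2 := by
        rw [hz, div_pow, div_mul_cancel₀ _ (by positivity)]
      have hz1 : z ≤ 1 / 100 := by
        rw [hz, div_pow, div_le_iff₀ (by positivity)]
        nlinarith
      have hz2 : 1 / 101 ≤ z := by
        rw [hz, div_pow, le_div_iff₀ (by positivity)]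
        nlinarith
      have h1 := p5 z hz0 hz1
      have h2 := F4 k0 (by omega) hka
      obtain ⟨-, r0, -⟩ := p3 z hz0 (by linarith)
      have h3 : 0 ≤ (k0 : ℝ) * rr z / (a : ℝ) ^ 2 * c k0 :=
        mul_nonneg (div_nonneg (mul_nonneg (Nat.cast_nonneg _) r0) (by positivity)) (c0 k0 hka)
      have h4 : (k0 : ℝ) * ((k0 : ℝ) - 1) * t / 2 ≤ 49 / 40 * z := by
        have h5 : (k0 : ℝ) * ((k0 : ℝ) - 1) * t ≤ (k0 : ℝ) ^ 2 * t := by
          apply mul_le_mul_of_nonneg_right _ ht0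
          nlinarith [(Nat.cast_nonneg k0 : (0 : ℝ) ≤ k0)]
        have h6 : (k0 : ℝ) ^ 2 * t = z * ((a : ℝ) ^ 2 * t) := by rw [← hza]; ring
        have h7 : z * ((a : ℝ) ^ 2 * t) ≤ z * (49 / 20) :=
          mul_le_mul_of_nonneg_left hcon.le hz0
        linarith
      have h8 : 6 / (a : ℝ) ≤ z / 1000 := by
        rw [div_le_iff₀ hα0]
        nlinarith
      linarith
    | succ k hk ih =>
      intro hka
      have ih := ih (by omega)
      have hk1 : 1 ≤ k := by omega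
      have := step ⟨p1, pP1, p3, p4, p5⟩ (α := a) (κ := k) (t := t) (q := q k) (q' := q (k + 1))
        (c := c k) (c' := c (k + 1)) hα (by exact_mod_cast hk1) (by exact_mod_cast hka)
        (c0 k (by omega)) (F2 k hk1 (by omega)) (qle k (by omega)) (c0 (k + 1) hka) (F1 k hka)
        (F3 k hk1 hka) hcon.le ih
      push_cast
      exact this
  have hfin := claim a (by omega) le_rfl
  rw [div_self hα0.ne', one_pow, pP1, qa] at hfin
  obtain ⟨-, r0, r1, -⟩ := p3 1 zero_le_one le_rfl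
  have h1 := F2 a (by omega) le_rfl
  rw [qa] at h1
  have h2 := c0 a le_rfl
  have h3 : (a : ℝ) * rr 1 / (a : ℝ) ^ 2 * c a = rr 1 * c a / a := by
    field_simp
  rw [h3] at hfin
  have h4 : rr 1 * c a / a ≤ (11 / 2) / a := by
    gcongr
    nlinarith
  have h5 : (11 / 2 : ℝ) / a < 6 / a := by
    gcongr
    norm_num
  linarith

end Pool.Agent.Y406.DC3
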